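import Pool.Agent.Results.MP_5d015b_lc.PinningInP
import Pool.Agent.T2H90.CJ.Main

/-!
# The globally rigid pinning problem is solvable in polynomial time

Unconditional geometric form of the starting file `PinningInP` for this question, whose last part
had the theorem of Connelly, Jackson and Jordán (a graph with at least four vertices is globally
rigid in the plane if and only if it is 3-connected and redundantly rigid) as a hypothesis. Here this
theorem is proved (`Pool.Agent.T2H90.CJ.Main`).

`NPC.PolyTime f`: the function `f` on bit strings is computed by a Turing machine in polynomial time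
(Mathlib's `Turing.TM2ComputableInPolyTime`).  `NPC.bits`: the standard code of structured data as a
bit string; numbers are written in binary.  `adjMatrix G`: the adjacency matrix of a graph `G` on
`{0, ..., n-1}`, as the list of its rows, which are lists of Booleans.
-/

namespace Pool.Agent.Results.MP_5d015b_lc.PinningUnconditional

open Pool.Agent.NPC Pool.Agent.NPC.R671 Pool.Agent.H632R2.Cogirth

/-- A realization in the plane is generic if its `2|V|` coordinates are algebraically independent
over `ℚ`. -/
def GenericRealization {n : ℕ} (p : Fin n → EuclideanSpace ℝ (Fin 2)) : Prop :=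
  AlgebraicIndependent ℚ (fun c : Fin n × Fin 2 => p c.1 c.2)

/-- `G` is globally rigid in the plane: for every generic realization `p`, every realization `q`
with the same edge lengths has all pairwise distances equal to those of `p`. -/
def GloballyRigid {n : ℕ} (G : SimpleGraph (Fin n)) : Prop :=
  ∀ p : Fin n → EuclideanSpace ℝ (Fin 2), GenericRealization p →
    ∀ q : Fin n → EuclideanSpace ℝ (Fin 2),
      (∀ u v, G.Adj u v → dist (p u) (p v) = dist (q u) (q v)) →
      ∀ u v, dist (p u) (p v) = dist (q u) (q v)

/-- `K(P)`: the complete graph on `P`, as a graph on `V`. -/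
def K {n : ℕ} (P : Finset (Fin n)) : SimpleGraph (Fin n) :=
  SimpleGraph.fromRel fun u v => u ∈ P ∧ v ∈ P

theorem gr_iff {n : ℕ} (G : SimpleGraph (Fin n)) :
    PinningInP.GloballyRigid G ↔ GloballyRigid G := Iff.rfl

theorem gr_iff' {n : ℕ} (G : SimpleGraph (Fin n)) :
    PinningInP.GloballyRigid G ↔ TH694.GP.GloballyRigid G := Iff.rfl

theorem cjj (n : ℕ) (hn : 4 ≤ n) (G : SimpleGraph (Fin n)) :
    PinningInP.GloballyRigid G ↔
      PinningInP.ThreeConnected G ∧ PinningInP.RedundantlyRigid G := by
  rw [gr_iff',
    Pool.Agent.T2H90.CJ.connelly_jackson_jordan G (by rw [Fintype.card_fin]; exact hn)]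
  unfold PinningInP.ThreeConnected PinningInP.RedundantlyRigid
  constructor
  · rintro ⟨h1, h2⟩
    exact ⟨⟨hn, h1⟩, h2⟩
  · rintro ⟨⟨-, h1⟩, h2⟩
    exact ⟨h1, h2⟩

open Classical in
/-- **The globally rigid pinning problem is solvable in polynomial time** (geometric form,
unconditional).
(1) Some polynomial-time algorithm decides, given a graph `G` and a number `k` in binary, whether
there is a set `P` of at most `k` vertices such that `G + K(P)` is globally rigid in the plane.
(2) Some polynomial-time algorithm outputs, given a graph `G`, (the characteristic vector of) a set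
`P` of minimum size such that `G + K(P)` is globally rigid in the plane. -/
theorem result :
    (∃ f : List Bool → List Bool, PolyTime f ∧
      ∀ (n : ℕ) (G : SimpleGraph (Fin n)) (k : ℕ),
        f (bits (adjMatrix G, k)) =
          bits (decide (∃ P : Finset (Fin n), P.card ≤ k ∧ GloballyRigid (G ⊔ K P)))) ∧
    (∃ g : List Bool → List Bool, PolyTime g ∧
      ∀ (n : ℕ) (G : SimpleGraph (Fin n)), ∃ P : Finset (Fin n), GloballyRigid (G ⊔ K P) ∧
        (∀ P' : Finset (Fin n), GloballyRigid (G ⊔ K P') → P.card ≤ P'.card) ∧
        g (bits (adjMatrix G)) = bits (List.ofFn fun i => decide (i ∈ P))) := by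
  obtain ⟨⟨f, hf, hf'⟩, g, hg, hg'⟩ := PinningInP.result.2 cjj
  exact ⟨⟨f, hf, fun n G k => hf' n G k⟩, g, hg, fun n G => hg' n G⟩

end Pool.Agent.Results.MP_5d015b_lc.PinningUnconditional
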